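import Pool.Agent.W680.WH.Stm

/-!
# WHH-OPR: rotations
-/

set_option autoImplicit false

open Pool.Agent.W680.WH ContinuousLinearMap InnerProductSpace
open scoped ComplexConjugate

namespace Pool.Agent.W418.WH.Opr

theorem R_apply (k : Circle) (f : E) (n : ℤ) : R k f n = ((k ^ n : Circle) : ℂ) * f n := by
  unfold R
  rw [wsh_apply, sub_zero]

theorem R_wsh (k : Circle) (j : ℤ) (c : ℤ → ℂ) (C : ℝ) (hc : ∀ n, ‖c n‖ ≤ C) :
    R k * wsh j c C hc = ((k ^ j : Circle) : ℂ) • (wsh j c C hc * R k) := by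
  ext f n
  have h1 : (R k * wsh j c C hc) f n = ((k ^ n : Circle) : ℂ) * (c n * f (n - j)) := by
    rw [mul_apply_eq_comp, R_apply, wsh_apply]
  have h2 : (((k ^ j : Circle) : ℂ) • (wsh j c C hc * R k)) f n
      = ((k ^ j : Circle) : ℂ) * (c n * (((k ^ (n - j) : Circle) : ℂ) * f (n - j))) := by
    change ((k ^ j : Circle) : ℂ) * ((wsh j c C hc (R k f)) n) = _
    rw [wsh_apply, R_apply]
  have h3 : ((k ^ n : Circle) : ℂ) = ((k ^ j : Circle) : ℂ) * ((k ^ (n - j) : Circle) : ℂ) := by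
    rw [← Circle.coe_mul, ← zpow_add]
    congr 2
    ring
  rw [h1, h2, h3]
  ring

theorem R_Z (k : Circle) : R k * Z = (k : ℂ) • (Z * R k) := by
  have h := R_wsh k 1 (fun n => ((Real.sqrt (om n / om (n - 1)) : ℝ) : ℂ)) 2 (fun n =>
    sq_ratio_bound _ _ (om_pos _) (om_pos _) (by have := (om_ratio_le (n - 1)).1; simpa using this))
  rw [zpow_one] at h
  exact h

theorem R_Z2 (k : Circle) : R k * Z2 = (k : ℂ) • (Z2 * R k) := by
  have h := R_wsh k 1 (fun n => ((Real.sqrt (om (n - 1) / om n) : ℝ) : ℂ)) 2 (fun n =>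
    sq_ratio_bound _ _ (om_pos _) (om_pos _) (by have := (om_ratio_le (n - 1)).2; simpa using this))
  rw [zpow_one] at h
  exact h

theorem R_Zs (k : Circle) : R k * Zs = ((k⁻¹ : Circle) : ℂ) • (Zs * R k) := by
  have h := R_wsh k (-1) (fun n => ((Real.sqrt (om (n + 1) / om n) : ℝ) : ℂ)) 2 (fun n =>
    sq_ratio_bound _ _ (om_pos _) (om_pos _) (om_ratio_le n).1)
  rw [zpow_neg_one] at h
  exact h

theorem R_Q (k : Circle) : R k * Q = (k : ℂ) • (Q * R k) := by
  unfold Q
  rw [mul_sub, R_Z, R_Z2, sub_mul, smul_sub]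

theorem R_X (k : Circle) : R k * X = (k : ℂ) • (X * R k) := by
  have hk : ((k : ℂ)) * (((k⁻¹ : Circle) : ℂ) * (k : ℂ)) = (k : ℂ) := by
    rw [← Circle.coe_mul, inv_mul_cancel, Circle.coe_one, mul_one]
  have h1 : R k * (Q * Zs * Q) = (k : ℂ) • (Q * Zs * Q * R k) := by
    calc R k * (Q * Zs * Q) = (R k * Q) * Zs * Q := by simp only [mul_assoc]
      _ = (k : ℂ) • (Q * (R k * Zs) * Q) := by
          rw [R_Q]; simp only [smul_mul_assoc, mul_assoc]
      _ = (k : ℂ) • (((k⁻¹ : Circle) : ℂ) • (Q * Zs * (R k * Q))) := by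
          rw [R_Zs]; simp only [smul_mul_assoc, mul_smul_comm, mul_assoc]
      _ = (k : ℂ) • (((k⁻¹ : Circle) : ℂ) • ((k : ℂ) • (Q * Zs * Q * R k))) := by
          rw [R_Q]; simp only [mul_smul_comm, mul_assoc]
      _ = (k : ℂ) • (Q * Zs * Q * R k) := by
          rw [smul_smul, smul_smul, mul_assoc, hk]
  unfold X
  rw [mul_neg, mul_add, mul_smul_comm, R_Q, h1, neg_mul, add_mul, smul_mul_assoc, smul_neg,
    smul_add, smul_comm]

theorem main : S_OPR := by
  refine ⟨?_, R_Z, R_X, ?_, ?_, ?_, ?_⟩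
  · intro k n
    ext m
    rw [R_apply]
    change _ = ((k ^ n : Circle) : ℂ) * (eb n) m
    by_cases hm : m = n
    · rw [hm]
    · have h0 : (eb n) m = 0 := by
        unfold eb
        rw [lp.single_apply]
        simp [hm]
      rw [h0, mul_zero, mul_zero]
  · intro k l
    ext f n
    rw [mul_apply_eq_comp, R_apply, R_apply, R_apply, mul_zpow, Circle.coe_mul]
    ring
  · ext f n
    rw [R_apply, one_zpow, Circle.coe_one, one_mul]
    rfl
  · intro k
    symm
    rw [ContinuousLinearMap.eq_adjoint_iff]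
    intro f g
    rw [lp.inner_eq_tsum, lp.inner_eq_tsum]
    refine tsum_congr fun n => ?_
    rw [R_apply, R_apply]
    have h1 : conj (((k⁻¹ ^ n : Circle)) : ℂ) = ((k ^ n : Circle) : ℂ) := by
      rw [← Circle.coe_inv_eq_conj, inv_zpow, inv_inv]
    simp only [RCLike.inner_apply, map_mul]
    rw [h1]
    ring
  · intro k f n
    unfold co
    rw [R_apply]
    ring

end Pool.Agent.W418.WH.Opr
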